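import Pool.Agent.K3h48.HM.Stm

/-! HM project: the asymptotic entropy is a limit. -/

set_option autoImplicit false

open Filter Topology MeasureTheory

namespace Pool.Agent.K3h64.HM

open Pool.Agent.K3h48.HM Real

theorem nml_add {x y : ℝ} (hx : 0 ≤ x) (hy : 0 ≤ y) :
    negMulLog (x + y) ≤ negMulLog x + negMulLog y := by
  have h1 : ∀ a b : ℝ, 0 ≤ a → 0 ≤ b → a * log a ≤ a * log (a + b) := by
    intro a b ha hb
    rcases eq_or_lt_of_le ha with h | h
    · rw [← h, zero_mul, zero_mul]
    · exact mul_le_mul_of_nonneg_left (log_le_log h (by linarith)) ha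
  have h2 := h1 x y hx hy
  have h3 := h1 y x hy hx
  rw [add_comm y x] at h3
  unfold negMulLog
  linarith [add_mul x y (log (x + y))]

theorem nml_sum {ι : Type} (s : Finset ι) (c : ι → ℝ) (hc : ∀ i ∈ s, 0 ≤ c i) :
    negMulLog (∑ i ∈ s, c i) ≤ ∑ i ∈ s, negMulLog (c i) := by
  classical
  induction s using Finset.induction_on with
  | empty => simp
  | insert a s ha ih =>
    rw [Finset.sum_insert ha, Finset.sum_insert ha]
    have h1 := ih fun i hi => hc i (Finset.mem_insert_of_mem hi)
    have h2 := nml_add (hc a (Finset.mem_insert_self a s))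
      (Finset.sum_nonneg fun i hi => hc i (Finset.mem_insert_of_mem hi))
    linarith

variable {G : Type} [Group G]

open scoped Classical in
theorem coeff_eq (f g : MonoidAlgebra ℝ G) (z : G) :
    (f * g).coeff z = ∑ p ∈ (f.coeff.support ×ˢ g.coeff.support) with p.1 * p.2 = z,
      f.coeff p.1 * g.coeff p.2 := by
  rw [MonoidAlgebra.coeff_mul, Finset.sum_filter, Finset.sum_product]
  rfl

open scoped Classical in
theorem supp_sub (f g : MonoidAlgebra ℝ G) :
    (f * g).coeff.support ⊆
      (f.coeff.support ×ˢ g.coeff.support).image fun p => p.1 * p.2 := by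
  intro z hz
  by_contra hc
  rw [Finsupp.mem_support_iff] at hz
  apply hz
  rw [coeff_eq]
  apply Finset.sum_eq_zero
  intro p hp
  exfalso
  apply hc
  rw [Finset.mem_filter] at hp
  exact Finset.mem_image.2 ⟨p, hp.1, hp.2⟩

theorem mass_mul (f g : MonoidAlgebra ℝ G) :
    ∑ z ∈ (f * g).coeff.support, (f * g).coeff z =
      (∑ a ∈ f.coeff.support, f.coeff a) * ∑ b ∈ g.coeff.support, g.coeff b := by
  classical
  rw [Finset.sum_subset (supp_sub f g) fun z _ hz => Finsupp.notMem_support_iff.1 hz]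
  simp only [coeff_eq]
  rw [Finset.sum_fiberwise_of_maps_to (g := fun p : G × G => p.1 * p.2)
    (fun p hp => Finset.mem_image_of_mem _ hp) fun p => f.coeff p.1 * g.coeff p.2,
    Finset.sum_product, Finset.sum_mul_sum]

theorem isProb_mul {f g : MonoidAlgebra ℝ G} (hf : IsProb f) (hg : IsProb g) :
    IsProb (f * g) := by
  classical
  refine ⟨fun z => ?_, ?_⟩
  · rw [coeff_eq]
    exact Finset.sum_nonneg fun p _ => mul_nonneg (hf.1 _) (hg.1 _)
  · rw [mass_mul, hf.2, hg.2, mul_one]

theorem isProb_one : IsProb (1 : MonoidAlgebra ℝ G) := by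
  classical
  have h1 : (1 : MonoidAlgebra ℝ G).coeff = Finsupp.single 1 1 := rfl
  refine ⟨fun z => ?_, ?_⟩
  · rw [h1, Finsupp.single_apply]
    split_ifs <;> norm_num
  · rw [h1, Finsupp.support_single_ne_zero _ one_ne_zero, Finset.sum_singleton,
      Finsupp.single_eq_same]

theorem isProb_pow {f : MonoidAlgebra ℝ G} (hf : IsProb f) (k : ℕ) : IsProb (f ^ k) := by
  induction k with
  | zero => rw [pow_zero]; exact isProb_one
  | succ k ih => rw [pow_succ]; exact isProb_mul ih hf

theorem H_nonneg {f : MonoidAlgebra ℝ G} (hf : IsProb f) : 0 ≤ H f := by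
  unfold H
  refine Finset.sum_nonneg fun a ha => negMulLog_nonneg (hf.1 a) ?_
  rw [← hf.2]
  exact Finset.single_le_sum (f := fun a => f.coeff a) (fun b _ => hf.1 b) ha

theorem H_mul {f g : MonoidAlgebra ℝ G} (hf : IsProb f) (hg : IsProb g) :
    H (f * g) ≤ H f + H g := by
  classical
  unfold H
  rw [Finset.sum_subset (supp_sub f g) fun z _ hz => by
    rw [Finsupp.notMem_support_iff.1 hz, negMulLog_zero]]
  have h1 : ∑ z ∈ (f.coeff.support ×ˢ g.coeff.support).image (fun p => p.1 * p.2),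
      negMulLog ((f * g).coeff z) ≤
      ∑ z ∈ (f.coeff.support ×ˢ g.coeff.support).image (fun p => p.1 * p.2),
        ∑ p ∈ (f.coeff.support ×ˢ g.coeff.support) with p.1 * p.2 = z,
          negMulLog (f.coeff p.1 * g.coeff p.2) := by
    refine Finset.sum_le_sum fun z _ => ?_
    rw [coeff_eq]
    exact nml_sum _ _ fun p _ => mul_nonneg (hf.1 _) (hg.1 _)
  refine h1.trans (le_of_eq ?_)
  rw [Finset.sum_fiberwise_of_maps_to (g := fun p : G × G => p.1 * p.2)
    (fun p hp => Finset.mem_image_of_mem _ hp) fun p => negMulLog (f.coeff p.1 * g.coeff p.2),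
    Finset.sum_product]
  simp only [negMulLog_mul, Finset.sum_add_distrib]
  have h2 : ∑ a ∈ f.coeff.support, ∑ b ∈ g.coeff.support, g.coeff b * negMulLog (f.coeff a) =
      ∑ a ∈ f.coeff.support, negMulLog (f.coeff a) := by
    refine Finset.sum_congr rfl fun a _ => ?_
    rw [← Finset.sum_mul, hg.2, one_mul]
  have h3 : ∑ a ∈ f.coeff.support, ∑ b ∈ g.coeff.support, f.coeff a * negMulLog (g.coeff b) =
      ∑ b ∈ g.coeff.support, negMulLog (g.coeff b) := by
    rw [← Finset.sum_mul_sum, hf.2, one_mul]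
  rw [h2, h3]

theorem t_FEK : S_FEK := by
  intro G _ f hf
  have hsub : Subadditive fun k : ℕ => H (f ^ k) := by
    intro m n
    simp only
    rw [pow_add]
    exact H_mul (isProb_pow hf m) (isProb_pow hf n)
  have hbdd : BddBelow (Set.range fun n : ℕ => H (f ^ n) / n) := by
    refine ⟨0, ?_⟩
    rintro _ ⟨n, rfl⟩
    exact div_nonneg (H_nonneg (isProb_pow hf n)) (Nat.cast_nonneg n)
  have h1 := hsub.tendsto_lim hbdd
  have h2 : hsub.lim = ⨅ k : ℕ, H (f ^ (k + 1)) / (k + 1) := by
    unfold Subadditive.lim iInf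
    congr 1
    ext y
    constructor
    · rintro ⟨n, hn, rfl⟩
      obtain ⟨k, rfl⟩ := Nat.exists_eq_add_of_le' (Set.mem_Ici.1 hn)
      refine ⟨k, ?_⟩
      simp
    · rintro ⟨k, rfl⟩
      refine ⟨k + 1, Set.mem_Ici.2 (by omega), ?_⟩
      simp
  rw [← h2]
  exact h1

end Pool.Agent.K3h64.HM
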